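import Mathlib
import Pool.Agent.R849.HP.Curves

set_option autoImplicit false

/-!
# Entire curves whose coordinates are sums of few high powers

MP_b9fedf_ag, Q1. Let `X` be a quasi-projective variety, `F = 0`, `Q ≠ 0`, defined by forms of
degree at most `d` (an arbitrary projective variety for `Q = 1`).

(1), (2) and (3): the conjecture of Green, Griffiths and Lang holds, in the strong form with the
multiplicative group in place of abelian varieties, and modulo a closed set `Z`, for the entire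
curves in `X` whose homogeneous coordinates are near infinity sums of `r` terms `ρ e g ^ M` with
`M ≥ (d + 2) ^ (2 (r + 1))`.

(4): it holds for all entire curves in the varieties `X_M` with the equations
`F (x_0 ^ M, …, x_N ^ M) = 0`, `Q (x_0 ^ M, …, x_N ^ M) ≠ 0`, `M ≥ (d + 2) ^ (2 (N + 2))`.
-/

namespace Pool.Agent.Results.MP_b9fedf_ag.SumsOfPowers

open MvPolynomial Metric Set Filter Topology
open Pool.Agent.TH143 Pool.Agent.W603.BP Pool.Agent.R849.HP

variable {N : ℕ} {ι : Type}

/-- Let `X` be the quasi-projective variety `F = 0`, `Q ≠ 0` in projective space (an arbitrary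
projective variety for `Q = 1`), given by forms of degree at most `d`, let `r` be a number and let
`M ≥ (d + 2) ^ (2 (r + 1))`.

(1), (2) Through all points, outside a discrete set, of a holomorphic curve in the closure `F = 0`
of one of the two kinds near the puncture, pass nonconstant morphisms from the multiplicative
group to `X`.

(3) For a closed set `Z` the following are equivalent: the nonconstant morphisms from the
multiplicative group to `X` lie in `Z`; the entire curves of the kind in (2) lie in `Z`; the maps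
from the punctured disc of the kind in (1) lie in `Z`.

(4) Let `M ≥ (d + 2) ^ (2 (N + 2))` and let `X_M` be the variety of the points such that the point
with the coordinates `x_j ^ M` is in `X`. For a closed set `Z` the following are equivalent: the
nonconstant morphisms from the multiplicative group to `X_M` lie in `Z`; all nonconstant entire
curves in `X_M` lie in `Z`; all holomorphic maps from the punctured disc to `X_M` with an essential
singularity lie in `Z`. -/
theorem result {d : ℕ} (F : ι → MvPolynomial (Fin (N + 1)) ℂ)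
    (hF : ∀ i, ∃ e ≤ d, (F i).IsHomogeneous e)
    (Q : MvPolynomial (Fin (N + 1)) ℂ) {e : ℕ} (he : e ≤ d) (hQ : Q.IsHomogeneous e) :
    (∀ r M : ℕ, (d + 2) ^ (2 * (r + 1)) ≤ M → ∀ f, PunctCurve F Q r M f →
      ∃ δ > 0, ∀ z0 : ℂ, z0 ≠ 0 → ‖z0‖ < δ →
        ∀ᶠ z in 𝓝[≠] z0, ∃ P, IsGmCurve F Q P ∧ Through P (f z)) ∧
    (∀ r M : ℕ, (d + 2) ^ (2 * (r + 1)) ≤ M → ∀ f, EntCurve F Q r M f →
      ∃ R : ℝ, ∀ z0 : ℂ, R < ‖z0‖ →
        ∀ᶠ z in 𝓝[≠] z0, ∃ P, IsGmCurve F Q P ∧ Through P (f z)) ∧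
    (∀ Z : Set (MvPolynomial (Fin (N + 1)) ℂ), (∀ G ∈ Z, ∃ d, G.IsHomogeneous d) →
      [∀ P, IsGmCurve F Q P → ∀ t, t ≠ 0 → ∀ G ∈ Z, eval (fun j => (P j).eval t) G = 0,
        ∀ r M : ℕ, (d + 2) ^ (2 * (r + 1)) ≤ M → ∀ f, EntCurve F Q r M f → ∀ z, ∀ G ∈ Z,
          eval (f z) G = 0,
        ∀ r M : ℕ, (d + 2) ^ (2 * (r + 1)) ≤ M → ∀ f, PunctCurve F Q r M f → ∀ w : ℂ, w ≠ 0 →
          ‖w‖ < 1 → ∀ G ∈ Z, eval (f w) G = 0].TFAE) ∧
    (∀ M : ℕ, (d + 2) ^ (2 * (N + 2)) ≤ M →
      ∀ Z : Set (MvPolynomial (Fin (N + 1)) ℂ), (∀ G ∈ Z, ∃ d, G.IsHomogeneous d) →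
      [∀ P, IsGmCurve (fun i => expand M (F i)) (expand M Q) P → ∀ t, t ≠ 0 → ∀ G ∈ Z,
          eval (fun j => (P j).eval t) G = 0,
        ∀ f, Line (fun i => expand M (F i)) (expand M Q) f → ∀ z, ∀ G ∈ Z, eval (f z) G = 0,
        ∀ f, Disc (fun i => expand M (F i)) (expand M Q) f → ∀ w : ℂ, w ≠ 0 → ‖w‖ < 1 → ∀ G ∈ Z,
          eval (f w) G = 0].TFAE) := by
  refine ⟨fun r M hM f hf => ?_, fun r M hM f hf => ent_local hM F hF Q he hQ f hf,
    fun Z hZ => powers_tfae F hF Q he hQ Z hZ, fun M hM Z hZ => covers_tfae hM F hF Q he hQ Z hZ⟩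
  obtain ⟨δ, hδ, -, h⟩ := punct_local hM F hF Q he hQ f hf
  exact ⟨δ, hδ, h⟩

end Pool.Agent.Results.MP_b9fedf_ag.SumsOfPowers
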