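import Pool.Agent.R871.SG.FamA

/-!
MP_b9fedf_ag, Q1: one growth condition for the entire curves in all members of a family of projective
varieties.
-/

set_option autoImplicit false

namespace Pool.Agent.Results.MP_b9fedf_ag.FamiliesOfVarieties

open Pool.Agent.R871.SG MvPolynomial

/-- Let `F` be polynomials in `q` parameters and `s` homogeneous coordinates, over the complex numbers,
and let `X_t ⊂ ℙˢ⁻¹` be the projective variety `{F(t, ·) = 0}`, for `t` in `ℂ^q`. Let `T = ⋃ l, K l` be
a countable union of closed sets of parameters (for instance any constructible set). There is a function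
`φ` with `φ r / log r → ∞` for `r → ∞` such that for all families of closed subsets
`Z_t = {G(t, ·) = 0}` the following are equivalent.

(1) For all `t` in `T`, all nonconstant algebraic maps from the affine line to `X_t` (rational curves)
have their images in `Z_t`.

(2) For all `t` in `T`, all nonconstant entire curves in `X_t`, whose homogeneous coordinates are given
by an entire map `f` (with or without common zeros) such that `log ‖f z‖ ≤ φ r` for all `z` with
`‖z‖ ≤ r`, for arbitrarily large `r`, have their images in `Z_t`. -/
theorem result {q s : ℕ} {ι : Type} (F : ι → MvPolynomial (Fin q ⊕ Fin s) ℂ)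
    (K : ℕ → Set (Fin q → ℂ)) (hK : ∀ l, IsClosed (K l)) : ∃ φ : ℝ → ℝ, Grows φ ∧
    ∀ (κ : Type) (G : κ → MvPolynomial (Fin q ⊕ Fin s) ℂ),
      (∀ t ∈ ⋃ l, K l, ∀ P : Fin s → Polynomial ℂ, InFib F t (pc P) → NonConstLine (pc P) →
        InFib G t (pc P)) ↔
      ∀ t ∈ ⋃ l, K l, ∀ f : ℂ → Fin s → ℂ, Differentiable ℂ f → Slow φ f → InFib F t f →
        NonConstLine f → InFib G t f :=
  members_iff F K hK

end Pool.Agent.Results.MP_b9fedf_ag.FamiliesOfVarieties
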