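import Pool.Agent.R869.WEllL

/-!
MP_b9fedf_ag, Q1: entire curves and the maps from one given one-dimensional complex torus `E`, for all
projective varieties given by linear combinations of the powers `x_j ^ d` and of `s` further monomials
of degree `d`, in given sets of variables, for almost all choices of these monomials: the images of
`E` are dense in the Zariski closure of the union of the entire curves, and the variety is hyperbolic
if all maps from `E` are constant; for the hypersurfaces among them (with arbitrary coefficients), a
necessary and sufficient combinatorial criterion for the existence of maps from `E`, and of entire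
curves, with given vanishing coordinates.

`EMap L F f`, `SpE L F` (`Pool/Agent/R869/WEllL.lean`): `f` is the vector of homogeneous coordinates,
entire functions without common zeros, of a nonconstant holomorphic map from `ℂ / L` to `X = {F = 0}`;
the Zariski closure in `X` of the union of the images of these maps. `TuplesIn I d`,
`AlmostAllIn I P` (`SDefs.lean`): the tuples of exponent vectors of degree `d`, the `i`-th one of a
monomial in the variables from `I i`; the proportion of the tuples with the property `P` tends to `1`
for `d → ∞`. `withPowers` (`WDensDefs.lean`): the set of the exponent vectors `a i` and of those of the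
`x_j ^ d`. `Loose F J` (`USharpDefs.lean`): `F` does not have exactly one monomial in the variables
from `J`, and there is a colouring of the variables with `V ≥ 2` colours on `J` such that
`N + D + 4 ≤ 2 V`, where `N` is the number of the monomials of `F` in the variables from `J` whose
variables have different colours, and `D` is the number of the colours on `J` for which exactly one
monomial of `F` in the variables from `J` has all its variables of this colour. `OrbitIn F b x`
(`SDir.lean`): the points `(t ^ b_j x_j)` are in `X`. From the starting repository: `EntireCurve ∅ F f`
(`Pool/Agent/H159R3/GGL/Log.lean`): `f` is the vector of homogeneous coordinates, entire functions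
without common zeros, of an entire curve in `X`; `SpH ∅ F` (`LogSpecial.lean`): the Zariski closure in
`X` of the union of the entire curves.
-/

set_option autoImplicit false

namespace Pool.Agent.Results.MP_b9fedf_ag.OneTorusSuffices

open MvPolynomial Pool.Agent.R869.Wd Pool.Agent.H159R3.GGLLog

/-- For the projective variety `X = {F = 0}` and all one-dimensional complex tori `E = ℂ / L`: the
Zariski closures of the unions of the images of all nonconstant holomorphic maps from `E` to `X`, and
of all entire curves in `X`, coincide; all entire curves in `X` are constant if (and only if) all
holomorphic maps from `E` to `X` are constant. -/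
def OneTorus {n : ℕ} {ι : Type} (F : ι → MvPolynomial (Fin (n + 1)) ℂ) : Prop :=
  ∀ L : PeriodPair, SpE L F = SpH ∅ F ∧
    ((∀ f, ¬ EMap L F f) ↔ ∀ f, ¬ EntireCurve ∅ F f)

/-- For the hypersurface `X = {F = 0}`, all one-dimensional complex tori `E = ℂ / L` and all sets `J`
of variables, the following are equivalent: `J` is loose for `F`; there is a nonconstant holomorphic
map from `E` to `X` on which exactly the coordinates outside `J` vanish identically; there is such an
entire curve in `X`; there is such an orbit of a diagonal one-parameter group in `X`. -/
def LooseCriterion {n : ℕ} (F : MvPolynomial (Fin (n + 1)) ℂ) : Prop :=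
  ∀ (L : PeriodPair) (J : Finset (Fin (n + 1))),
    [Loose F J,
      ∃ f, EMap L (fun _ : Fin 1 => F) f ∧ ∀ j, (∃ z, f z j ≠ 0) ↔ j ∈ J,
      ∃ f, EntireCurve ∅ (fun _ : Fin 1 => F) f ∧ ∀ j, (∃ z, f z j ≠ 0) ↔ j ∈ J,
      ∃ (x : Fin (n + 1) → ℂ) (b : Fin (n + 1) → ℤ), (∀ j, x j ≠ 0 ↔ j ∈ J) ∧
        (∃ j ∈ J, ∃ j' ∈ J, b j ≠ b j') ∧ OrbitIn (fun _ : Fin 1 => F) b x].TFAE

/-- For all `n`, `s`, all nonempty sets of variables `I 1, …, I s` and almost all tuples of monomials
of degree `d` in `n + 1` variables, the `i`-th one in the variables from `I i`: for all projective
varieties `X` given by `m` linear combinations `F e` of these monomials and of the `x_j ^ d`, all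
one-dimensional complex tori `E`, if all holomorphic maps from `E` to `X` are constant, then `X` is
Brody hyperbolic, and the images of `E` are dense in the Zariski closure of the union of the entire
curves (`OneTorus F`); for all hypersurfaces `{F = 0}` given by such a linear combination (with
arbitrary coefficients) and all sets `J` of variables, there is a nonconstant holomorphic map from `E`
to it on which exactly the coordinates outside `J` vanish identically if and only if there is such an
entire curve, if and only if `J` is loose for `F` (`LooseCriterion F`). -/
theorem result (n s : ℕ) (I : Fin s → Finset (Fin (n + 1))) (hI : ∀ i, (I i).Nonempty) :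
    AlmostAllIn I fun d a =>
      (∀ (m : ℕ) (F : Fin m → MvPolynomial (Fin (n + 1)) ℂ),
        (∀ e, (F e).support ⊆ withPowers d a) → OneTorus F) ∧
      ∀ F : MvPolynomial (Fin (n + 1)) ℂ, F.support ⊆ withPowers d a → LooseCriterion F := by
  classical
  refine almost_typI hI fun d a hty => ⟨fun m F hFT L => ?_, fun F hF L J => ?_⟩
  · obtain ⟨s', N, hg⟩ := hty.good
    exact spE_eq (hg.sys hFT ∅) L
  · have h1 := hty.crit hF J
    tfae_have 1 ↔ 2 := hty.critE hF L J
    tfae_have 1 ↔ 3 := h1.out 0 3
    tfae_have 1 ↔ 4 := h1.out 0 1
    tfae_finish

end Pool.Agent.Results.MP_b9fedf_ag.OneTorusSuffices
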