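import Mathlib
import Pool.Agent.R393.UD.Fam
import Pool.Agent.R393.UK.Open

set_option autoImplicit false

/-!
# Rational curves of bounded degree control the entire curves of bounded complexity; openness

Let `X` be the zeros, in complex projective `n`-space, of a family of forms `F` of degree at most
`d`, and `Z` the zeros of a family of forms `G` of any degrees (for `Z` empty take `G = 1`).

**Entire curves.**  An entire curve `x` is of complexity `(s, r, e)` (`CurveVec s r e x`) if there
are entire functions `X_1, …, X_s` with values in the invertible complex `r × r` matrices such that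
`X_l' = M_l X_l`, where the entries of `M_l` are polynomials with complex coefficients, of degree at
most `e` in each variable, in the entries of the `X_i`, `X_i⁻¹`, `i < l`, and the homogeneous
coordinates of `x(z)` are such polynomials in the entries of all `X_i`, `X_i⁻¹`.

**Theorem.**  There is a number `D n d s r e`, which depends on nothing else, such that:

(1) If all nonconstant rational curves in `X` which are given by polynomials of degree at most
`D n d s r e` lie in `Z`, then all nonconstant entire curves in `X` of complexity `(s, r, e)` lie in
`Z`. So, if `X` contains no rational curve of degree at most `D n d s r e`, then all entire curves of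
complexity `(s, r, e)` in `X` are constant. Conversely, the rational curves given by polynomials of
degree at most `e` are curves of complexity `(1, 2, e)`.

(2) (Generic fibres.) Let `A` be a domain of characteristic zero and let `X` and `Z` be given by
finitely many forms over `A`. If over all extensions of the field of fractions of `A` the rational
curves in `X` lie in `Z`, then for all `s, r, e` there is a nonzero element `a` of `A` such that for
all homomorphisms `φ : A → ℂ` with `φ(a) ≠ 0` all nonconstant entire curves of complexity `(s, r, e)`
in the fibre `X_φ` lie in `Z_φ`.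

(3) (Openness.) Let `A` be any commutative ring, `X` given by finitely many forms of degree at most
`d` over `A`, and `φ₀ : A → ℂ` such that the fibre `X_φ₀` contains no nonconstant rational curve given
by polynomials of degree at most `D n d s r e` (for example, such that `X_φ₀` is Brody hyperbolic).
Then there is a Zariski open neighbourhood of `φ₀`, i.e. an element `a` of `A` with `φ₀(a) ≠ 0`, such
that for all homomorphisms `φ : A → ℂ` with `φ(a) ≠ 0` all entire curves of complexity `(s, r, e)` in
the fibre `X_φ` are constant.

The proof is by compactness: a homomorphism `Θ` from the ring of sequences of complex numbers to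
`ℂ`, which kills the sequences with finitely many nonzero terms, turns a sequence of entire curves
(by their Taylor series at suitable points) into a formal curve on the limit variety, given by
iterated linear differential equations; so the limit variety contains a rational curve, over the
algebraically closed field which is the image of `Θ`, which lifts to rational curves of the same
degree in the varieties of the sequence. For (3) one more step is needed: if a variety contains a
rational curve of degree at most `D`, then so do its specialisations (reduction of a rational curve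
over a valuation ring, after a suitable change of the parameter).
-/

namespace Pool.Agent.Results.MP_b9fedf_ag.UniformCurves

open MvPolynomial Pool.Agent.R393.UD Pool.Agent.R393.UF Pool.Agent.R393.UK
open Pool.Agent.R849.PR (RatIn)

theorem ent_of_rat' {ι κ : Type} {n d s r e : ℕ} (F : ι → MvPolynomial (Fin (n + 1)) ℂ)
    (G : κ → MvPolynomial (Fin (n + 1)) ℂ) (hF : ∀ i, ∃ a, a ≤ d ∧ (F i).IsHomogeneous a)
    (hG : ∀ l, ∃ a, (G l).IsHomogeneous a) (h : RatUpTo (BP n d s r e) F G) :
    EntUpTo s r e F G := by
  intro x h1 h2 h3 z l
  obtain ⟨a, ha⟩ := hG l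
  refine spEnt_subset F hF s r e (fun Q b _ hQ => hQ x ⟨h1, h2, h3⟩ z) (G l) a ha
    fun p hp hc t => ?_
  have h4 := congrArg (Polynomial.eval t) (h p hp hc l)
  rw [← Pool.Agent.R393.UO.ev_poly, Polynomial.eval_zero] at h4
  exact h4

/-- **Uniformity for entire curves of bounded complexity.** -/
theorem result : ∃ D : ℕ → ℕ → ℕ → ℕ → ℕ → ℕ,
    (∀ (ι κ : Type) (n d s r e : ℕ) (F : ι → MvPolynomial (Fin (n + 1)) ℂ)
      (G : κ → MvPolynomial (Fin (n + 1)) ℂ),
      (∀ i, ∃ a, a ≤ d ∧ (F i).IsHomogeneous a) → (∀ l, ∃ a, (G l).IsHomogeneous a) →
      (RatUpTo (D n d s r e) F G → EntUpTo s r e F G) ∧ (EntUpTo 1 2 e F G → RatUpTo e F G)) ∧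
    (∀ (A : Type) [CommRing A] [IsDomain A] [CharZero A] (ι κ : Type) [Finite ι] [Finite κ]
      (n : ℕ) (F : ι → MvPolynomial (Fin (n + 1)) A) (G : κ → MvPolynomial (Fin (n + 1)) A),
      (∀ i, ∃ d, (F i).IsHomogeneous d) → (∀ l, ∃ d, (G l).IsHomogeneous d) →
      RatIn (fun i => map (algebraMap A (FractionRing A)) (F i))
        (fun l => map (algebraMap A (FractionRing A)) (G l)) →
      ∀ s r e : ℕ, ∃ a : A, a ≠ 0 ∧ ∀ φ : A →+* ℂ, φ a ≠ 0 →
        EntUpTo s r e (fun i => map φ (F i)) (fun l => map φ (G l))) ∧
    (∀ (A : Type) [CommRing A] (ι : Type) [Finite ι] (n d s r e : ℕ)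
      (F : ι → MvPolynomial (Fin (n + 1)) A), (∀ i, ∃ a, a ≤ d ∧ (F i).IsHomogeneous a) →
      ∀ φ₀ : A →+* ℂ, (∀ p : Fin (n + 1) → Polynomial ℂ, (∀ i, (p i).natDegree ≤ D n d s r e) →
        ¬ RatCurve (fun i => map φ₀ (F i)) p) →
      ∃ a, φ₀ a ≠ 0 ∧ ∀ φ : A →+* ℂ, φ a ≠ 0 → ∀ x, ¬ EntCurve s r e (fun i => map φ (F i)) x) :=
  ⟨BP, fun _ _ _ _ _ _ _ F G hF hG => ⟨ent_of_rat' F G hF hG, rat_of_ent F G⟩,
    fun _ _ _ _ _ _ _ _ _ F G hF hG h s r e => family F G hF hG h s r e,
    fun _ _ _ _ _ _ s r e F hF φ₀ h => open_ent F hF s r e φ₀ h⟩

end Pool.Agent.Results.MP_b9fedf_ag.UniformCurves
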